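import Pool.Agent.Helper78.SD.Final2
import Pool.Agent.Helper78.SD.Filter
import Pool.Agent.Helper78.SD.F1x
import Pool.Agent.Helper90.SD.F2
import Pool.Agent.Helper89.SD.F34
import Pool.Agent.Helper27.SD.ClassRefl
import Pool.Agent.Helper27.SD.Restrict
import Pool.Agent.Helper78.SD.Card
import Pool.Agent.Helper78.SD.Large
import Pool.Agent.Helper78.SD.Idem
import Pool.Agent.Helper78.SD.Split
import Pool.Agent.Helper78.SD.Quot
import Pool.Agent.Helper75.SD.Art2
import Pool.Agent.Helper78.SD.Art1
import Pool.Agent.Helper78.SD.Close

/-!
# Superdecomposable pure-injective modules over algebras over commutative Artinian rings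
(MP_ca5fc5_al, Q1)

The proof. The wide subposet contains a binary scheme of countably many pairs of pp conditions.
A minimal idempotent `e` of `C` for which the scheme is strict on modules with `eM = M` reduces the
theorem to the case that `C` is local (`Idem`, `Split`, `Quot`, `Restrict`). Then every small (fewer
than cov(M) elements) subset of `C` lies in a small subring `C₀` over which `C` is free with some
basis `κ` (`Art1`), and the algebra `S` (for right modules: the opposite algebra) has a small subring
`S₀` containing all coefficients, over which `κ` is a basis of `S`; its elements centralize `S₀`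
(`Art2`). The scheme gives a maximal system of filters on the pp lattice of `S₀` (`Helper72/Width`),
and a Cohen generic perfect subtree which decides all pp conditions in `n` variables over `S₀`, for
all `n`, gives a filter `p₀` (`Filter`). Let `N₀` be a compact `S₀`-module with an element `a` of pp
type `p₀`. In the coinduced module `Hom_{S₀}(S, N₀)` take the elements `a_j : t ↦ κ_j^*(t) a` and let
`p` be the set of the pp conditions over `S` satisfied by all `a_j`. Then `p` is a filter without
large elements (`Large`; induction on the number of elements `κ_q` needed to separate a condition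
from `p`, using `F1`, `F2`, `F34`), which gives a superdecomposable pure-injective module
(`Helper10/Width`).
-/

universe u v

namespace Pool.Agent.Results.MP_ca5fc5_al.ArtinianAlgebras

open Pool.Agent.Helper10.Width Pool.Agent.Helper72.Width

/-- **The answer to Q1 is yes for every algebra over a commutative Artinian ring `C` (for example
over an arbitrary field) which is generated by fewer than cov(M) elements as a `C`-module**; here
cov(M), the covering number of the meagre ideal, is uncountable, so the theorem covers all Artin
algebras and all algebras of countable dimension over all fields. The same holds relative to any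
definable class given by fewer than cov(M) pairs of pp conditions (`T = ∅` gives all right
`R`-modules). -/
theorem result (C : Type v) [CommRing C] [IsArtinianRing C] (R : Type u) [Ring R] [Algebra C R]
    (G : Set R) (hG : Cardinal.mk G < Cardinal.lift.{u} covM) (hspan : Submodule.span C G = ⊤)
    (T : Set (PP Rᵐᵒᵖ × PP Rᵐᵒᵖ)) (hT : Cardinal.mk T < Cardinal.lift.{u} covM)
    (P : Set (ppLattice T)) (hP : IsWide P) :
    HasSuperdecomposable T := by
  refine Pool.Agent.Helper78.SD.artinian_main Pool.Agent.Helper78.SD.goalFilter
    Pool.Agent.Helper27.SD.goalClass Pool.Agent.Helper78.SD.goalCard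
    (Pool.Agent.Helper78.SD.goalNoLarge Pool.Agent.Helper78.SD.goalF1a
      Pool.Agent.Helper78.SD.goalF1b Pool.Agent.Helper90.SD.goalF2
      Pool.Agent.Helper89.SD.goalF3 Pool.Agent.Helper89.SD.goalF4)
    Pool.Agent.Helper27.SD.goalReflect
    (Pool.Agent.Helper78.SD.Art.goalArt1 Pool.Agent.Helper78.SD.goalClose)
    Pool.Agent.Helper75.SD.goalArt2 Pool.Agent.Helper27.SD.goalRestrict
    Pool.Agent.Helper78.SD.goalIdem Pool.Agent.Helper78.SD.goalSplit
    Pool.Agent.Helper78.SD.goalQuot C Rᵐᵒᵖ
    ((MulOpposite.opLinearEquiv C : R ≃ₗ[C] Rᵐᵒᵖ) '' G) ?_ ?_ T hT P hP
  · exact lt_of_le_of_lt Cardinal.mk_image_le hG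
  · rw [← LinearEquiv.coe_coe, ← Submodule.map_span, hspan, Submodule.map_top,
      LinearEquiv.range]

end Pool.Agent.Results.MP_ca5fc5_al.ArtinianAlgebras
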