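import Pool.Agent.Helper10.CR.All

/-!
# Superdecomposable pure-injective modules over commutative rings (MP_ca5fc5_al, Q1)

For every commutative ring `R`, of any cardinality: if the pp lattice of `R` has a wide subposet,
then there is a superdecomposable pure-injective `R`-module.

The proof. (1) Modular lattices (`GoalConcat`, `GoalQuotient`, `GoalDiamond`, `GoalLT`): a modular
lattice with a binary scheme (which a wide subposet contains) has a filter without large elements
or an infinite nested sequence of diamonds. Collapse the intervals without a scheme; if an interval
of the quotient is distributive, the theorem on distributive intervals applies; otherwise the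
failures of distributivity give nested diamonds. A filter without large elements gives a
superdecomposable pure-injective module (`Helper10/Width`, `Helper72/Width`).
(2) Nested diamonds `p_n < u_n, v_n, w_n < q_n` in the pp lattice survive in the localization at a
maximal ideal containing the ideals `{r | r u_n ≤ p_n}` (`GoalLocalize`), and superdecomposable
pure-injective modules over the localization are such modules over `R` (`GoalDelocalize`).
(3) So let `R` be local with maximal ideal `m` and residue field `k`. It is not a chain ring: the pp
lattice of a chain ring is distributive (`GoalChain`). If `R` is Artinian, then nested diamonds give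
a scheme (`GoalDouble`) and the theorem on Artinian rings (`Helper78/SD`) applies. Otherwise `R` has
(`GoalLRS`, `GoalLR1`, `GoalLR2`, `GoalLR3`, `Quot.lean`) one of three kinds of quotient rings: with
three independent socle elements (case W), with independent socle elements `r x` and `b`, where
`b` is not in `x R` (case I), or with independent socle elements `r x`, `r x'`, where `x' / x` behaves
like an element of a quadratic extension of `k` (case II).
(4) In each of the cases there is a finitely axiomatized class of relational structures
`(V, Rel ⊆ V^N)` over `k` (`N = 3, 4, 7`) and a module `T = F / W` for every structure
(`Defs2.lean`), whose pp definable subgroups above the kernel of `T → V` are exactly the preimages of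
the subspaces of `V` which are definable by pp conditions for relational structures (`GoalLift`,
`GoalLAW`, `GoalLAI`, `GoalNF`, `GoalLAII`, `GoalExI`, `GoalExII`, `GoalAtI`, `GoalAtII`, `GoalEsp`,
`GoalTW`, `GoalTI`, `GoalTII`). Strings in these classes give a scheme (`GoalBoxes`, `GoalString`,
`GoalStrW`, `GoalStrI`, `GoalStrII`). The structures are modules over a finite dimensional algebra
over `k` in a class given by finitely many pairs of pp conditions (`GoalAx1`, `GoalAx2`, `GoalKB`),
for which a generic filter over a small subring and coinduction give a filter without large elements
(`GoalEngine`, `GoalRSH`); it is transferred to the pp lattice of `R` (`GoalTransfer`).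
-/

universe u

namespace Pool.Agent.Results.MP_ca5fc5_al.CommutativeRings

open Pool.Agent.Helper10.Width

/-- **The answer to Q1 is yes for every commutative ring `R`, of any cardinality**: if the lattice
of pp conditions in one variable has a wide subposet `P`, then there is a superdecomposable
pure-injective `R`-module. (`T = ∅`: the class of all modules.) -/
theorem result (R : Type u) [CommRing R] (P : Set (ppLattice (∅ : Set (PP Rᵐᵒᵖ × PP Rᵐᵒᵖ))))
    (hP : IsWide P) :
    HasSuperdecomposable (∅ : Set (PP Rᵐᵒᵖ × PP Rᵐᵒᵖ)) :=
  Pool.Agent.Helper10.CR.main_op Pool.Agent.Helper10.CR.tools Pool.Agent.Helper10.CR.tools' R P hP

end Pool.Agent.Results.MP_ca5fc5_al.CommutativeRings
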