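import Pool.Agent.Helper72.Width.Assembly

/-!
# Superdecomposable pure-injective modules over rings with fewer than cov(M) elements
(MP_ca5fc5_al, Q1)

The proof: (1) `Helper72/Width/Lattice.lean`: the wide subposet contains a binary scheme of pairs
`ψ_s < φ_s` (`s` a finite 0-1 string) with `φ_{s0} ∧ φ_{s1} ≤ ψ_{s0} ∧ ψ_{s1}`. By Zorn's lemma there
is a maximal system of filters `Z_s = Z_{s0} ∩ Z_{s1}` of the lattice with `φ_s ∈ Z_s`, `ψ_s ∉ Z_s`.
For every element `d` of the lattice the finite sets of strings deciding `d` are dense in a countable
poset; here `d` is decided if it is in the filter given by the finite set, or lies below two elements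
outside of it whose supports are disjoint. Fewer than cov(M) such dense sets are met by one
decreasing sequence of finite sets, which gives a filter without large elements. (2) Module part
(`Helper10/Width`): such a filter gives a superdecomposable pure-injective module of the class.
-/

universe u

namespace Pool.Agent.Results.MP_ca5fc5_al.CovMeagre

open Pool.Agent.Helper10.Width Pool.Agent.Helper72.Width

/-- **The answer to Q1 is yes for every ring with fewer than cov(M) elements**, and more generally
whenever some interval of the lattice of pp conditions with fewer than cov(M) elements contains a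
wide subposet. Here cov(M) is the covering number of the meagre ideal, which is uncountable, and
the same holds relative to any definable class of modules (given by a set `T` of pairs of pp
conditions; `T = ∅` gives all right `R`-modules). -/
theorem result (R : Type u) [Ring R] (T : Set (PP Rᵐᵒᵖ × PP Rᵐᵒᵖ)) (P : Set (ppLattice T))
    (hP : IsWide P)
    (hcard : Cardinal.mk R < Cardinal.lift.{u} covM ∨
      ∃ a b : ppLattice T, P ⊆ Set.Icc b a ∧
        Cardinal.mk (Set.Icc b a) < Cardinal.lift.{u + 1} covM) :
    HasSuperdecomposable T := by
  rcases hcard with h | ⟨a, b, hPI, hlt⟩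
  · letI := ppTop T
    refine small_case T hP (a := ⊤) (b := ⊥) (fun x _ => ⟨bot_le, le_top⟩) ?_
    refine (Cardinal.mk_set_le _).trans_lt (mk_ppLattice_lt T ?_)
    have e : Cardinal.mk Rᵐᵒᵖ = Cardinal.mk R := Cardinal.mk_congr MulOpposite.opEquiv.symm
    rwa [e]
  · exact small_case T hP hPI hlt

end Pool.Agent.Results.MP_ca5fc5_al.CovMeagre
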