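import Pool.Agent.Helper10.Width.Final

/-!
# Superdecomposable pure-injective modules over rings of arbitrary cardinality
(MP_ca5fc5_al, Q1)

Let `R` be any ring and let `X` be the class of right `R`-modules (left `Rᵐᵒᵖ`-modules) defined by
a set `T` of pairs of pp conditions (`T = ∅` gives all modules). If the lattice of pp conditions of
`X` contains a wide subposet whose finite joins distribute over meets with arbitrary elements of the
lattice, for instance a wide subposet in a distributive interval, then `X` contains a
superdecomposable pure-injective module. No countability is assumed.

The proof: (1) `Width/Tree.lean`: the wide subposet contains a binary tree of pairs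
`ψ_s < φ_s` with `φ_{s0} ∧ φ_{s1} ≤ ψ_{s0} ∧ ψ_{s1}`; a filter of the lattice maximal with the
properties `∑_{|s| = m} φ_s ∈ p` and `∑_{|t| = |s|, t ≠ s} φ_t ∉ p` has no large element, by
distributivity. (2) `Width/Realize.lean`, `Width/Dual.lean`: the filter is realized as the pp type
of an element `m` of a compact module `N` of the class (a bidual with respect to the circle group).
(3) `Width/Hull.lean`: the endomorphisms of `N` fixing `m` form a compact semigroup in which
multiplication on the left is continuous; a maximal kernel and Ellis' lemma give the hull `H` of `m`
as a direct summand of `N`. Absence of large elements and Ellis' lemma again show that no direct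
summand of `H` is indecomposable.
-/

set_option autoImplicit false

open Pool.Agent.Helper10.Width

namespace Pool.Agent.Results.MP_ca5fc5_al.DistributingWide

universe u

/-- **Main theorem.** Let `R` be a ring of any cardinality and let `T` be a set of pairs of pp
conditions for right `R`-modules, defining the class `X` of modules and its pp lattice
`ppLattice T`.
(1) If `ppLattice T` contains a wide subposet `P` whose finite joins distribute over meets with
arbitrary elements of the lattice, then there is a superdecomposable pure-injective module in `X`.
(2) This holds in particular if `P` is a wide subposet of an interval `[α, β]` of `ppLattice T`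
which is a distributive lattice. -/
theorem result (R : Type u) [Ring R] (T : Set (PP Rᵐᵒᵖ × PP Rᵐᵒᵖ)) (P : Set (ppLattice T))
    (hP : IsWide P)
    (h : Distributes P ∨ ∃ α β, P ⊆ Set.Icc α β ∧ IsDistributiveInterval α β) :
    HasSuperdecomposable T := by
  rcases h with hd | ⟨α, β, hPI, hI⟩
  · exact exists_superdecomposable_of_distributes T hP hd
  · exact exists_superdecomposable_of_distributes T hP (distributes_of_interval hPI hI)

end Pool.Agent.Results.MP_ca5fc5_al.DistributingWide
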